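import Mathlib

set_option autoImplicit false

open FirstOrder FirstOrder.Language

namespace Helper8Coheir

section MdefSec

universe u v w w'

variable {L : FirstOrder.Language.{u, v}} {M N : Type w} [L.Structure M] [L.Structure N] (f : M ↪ₑ[L] N)

/-- `S` is definable in `N` with parameters from (the image of) `M`. -/
def Mdef {α : Type} (S : Set (α → N)) : Prop :=
  ∃ ψ : L.Formula (α ⊕ M), ∀ v : α → N, v ∈ S ↔ ψ.Realize (Sum.elim v f)

theorem Mdef.formula {α : Type} {γ : Type w'} (ψ : L.Formula γ) (g : γ → α ⊕ M) :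
    Mdef f {v : α → N | ψ.Realize (fun x => Sum.elim v f (g x))} :=
  ⟨ψ.relabel g, fun v => by
    rw [Formula.realize_relabel]; rfl⟩

variable {f}

theorem Mdef.compl {α : Type} {S : Set (α → N)} (h : Mdef f S) : Mdef f {v | v ∉ S} := by
  obtain ⟨ψ, hψ⟩ := h
  refine ⟨ψ.not, fun v => ?_⟩
  rw [Formula.realize_not, ← hψ v]; rfl

theorem Mdef.all {α : Type} {ι : Type w'} [Finite ι] {S : ι → Set (α → N)} (h : ∀ i, Mdef f (S i)) :
    Mdef f {v | ∀ i, v ∈ S i} := by
  choose ψ hψ using h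
  refine ⟨Formula.iInf ψ, fun v => ?_⟩
  rw [Formula.realize_iInf]
  exact forall_congr' fun i => hψ i v

theorem Mdef.any {α : Type} {ι : Type w'} [Finite ι] {S : ι → Set (α → N)} (h : ∀ i, Mdef f (S i)) :
    Mdef f {v | ∃ i, v ∈ S i} := by
  choose ψ hψ using h
  refine ⟨Formula.iSup ψ, fun v => ?_⟩
  rw [Formula.realize_iSup]
  exact exists_congr fun i => hψ i v

theorem Mdef.and {α : Type} {S T : Set (α → N)} (hS : Mdef f S) (hT : Mdef f T) :
    Mdef f {v | v ∈ S ∧ v ∈ T} := by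
  obtain ⟨ψ, hψ⟩ := hS
  obtain ⟨χ, hχ⟩ := hT
  refine ⟨ψ ⊓ χ, fun v => ?_⟩
  rw [Formula.realize_inf, ← hψ v, ← hχ v]; rfl

theorem Mdef.const {α : Type} (p : Prop) : Mdef f {_v : α → N | p} := by
  classical
  by_cases hp : p
  · exact ⟨⊤, fun v => by simp [hp]⟩
  · exact ⟨⊥, fun v => by simp [hp]⟩

theorem Mdef.congr {α : Type} {S T : Set (α → N)} (hS : Mdef f S) (h : ∀ v, v ∈ S ↔ v ∈ T) :
    Mdef f T := by
  have : S = T := Set.ext h
  rwa [← this]

theorem Mdef.iff_const {α : Type} {S : Set (α → N)} (hS : Mdef f S) (p : Prop) :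
    Mdef f {v | v ∈ S ↔ p} := by
  classical
  by_cases hp : p
  · exact hS.congr fun v => by simp [hp]
  · exact hS.compl.congr fun v => by simp [hp]

theorem Mdef.preimage {α γ : Type} {S : Set (γ → N)} (hS : Mdef f S) (g : γ → α ⊕ M) :
    Mdef f {v : α → N | (fun x => Sum.elim v f (g x)) ∈ S} := by
  obtain ⟨ψ, hψ⟩ := hS
  refine ⟨ψ.relabel (Sum.elim g Sum.inr), fun v => ?_⟩
  rw [Formula.realize_relabel, Set.mem_ofPred_eq, hψ]
  have : (Sum.elim (fun x => Sum.elim v (⇑f) (g x)) (⇑f)) =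
      (Sum.elim v (⇑f) ∘ Sum.elim g Sum.inr) := by
    funext x
    rcases x with x | x <;> rfl
  rw [this]

theorem Mdef.comap {α γ : Type} {S : Set (γ → N)} (hS : Mdef f S) (g : γ → α) :
    Mdef f {v : α → N | (fun x => v (g x)) ∈ S} :=
  hS.preimage (fun x => Sum.inl (g x))

theorem Mdef.ex {α β : Type} [Finite β] {S : Set (α ⊕ β → N)} (hS : Mdef f S) :
    Mdef f {v : α → N | ∃ w : β → N, Sum.elim v w ∈ S} := by
  obtain ⟨ψ, hψ⟩ := hS
  refine ⟨(ψ.relabel (Sum.elim (Sum.elim (fun a => Sum.inl (Sum.inl a)) Sum.inr)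
    (fun x => Sum.inl (Sum.inr x))) : L.Formula ((α ⊕ M) ⊕ β)).iExs β, fun v => ?_⟩
  rw [Formula.realize_iExs, Set.mem_ofPred_eq]
  refine exists_congr fun w => ?_
  rw [Formula.realize_relabel, hψ]
  have : Sum.elim (Sum.elim v w) (⇑f) = ((Sum.elim (Sum.elim v (⇑f)) w) ∘
      (Sum.elim (Sum.elim (fun a => Sum.inl (Sum.inl a)) Sum.inr)
    (fun x => Sum.inl (Sum.inr x)))) := by
    funext x
    rcases x with (x | x) | x <;> rfl
  rw [this]

/-- A nonempty `M`-definable set in finitely many variables has a point from `M`. -/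
theorem Mdef.point {α : Type} [Finite α] {S : Set (α → N)} (hS : Mdef f S) {v₀ : α → N}
    (h₀ : v₀ ∈ S) : ∃ v : α → M, (fun x => f (v x)) ∈ S := by
  obtain ⟨ψ, hψ⟩ := hS
  let χ : L.Formula M := (ψ.relabel Sum.swap).iExs α
  have h1 : χ.Realize (⇑f ∘ (id : M → M)) := by
    rw [Formula.realize_iExs]
    refine ⟨v₀, ?_⟩
    rw [Formula.realize_relabel]
    have := (hψ v₀).1 h₀
    convert this using 1
    funext x
    rcases x with x | x <;> rfl
  rw [f.map_formula, Formula.realize_iExs] at h1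
  obtain ⟨v, hv⟩ := h1
  refine ⟨v, ?_⟩
  rw [hψ]
  rw [Formula.realize_relabel] at hv
  rw [← f.map_formula] at hv
  convert hv using 1
  funext x
  rcases x with x | x <;> rfl

/-- Equality of types over `M`. -/
def tpEq (f : M ↪ₑ[L] N) {α : Type} (v v' : α → N) : Prop :=
  ∀ S : Set (α → N), Mdef f S → (v ∈ S ↔ v' ∈ S)

theorem tpEq.refl {α : Type} (v : α → N) : tpEq f v v := fun _ _ => Iff.rfl

theorem tpEq.symm {α : Type} {v v' : α → N} (h : tpEq f v v') : tpEq f v' v :=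
  fun S hS => (h S hS).symm

theorem tpEq.trans {α : Type} {v v' v'' : α → N} (h : tpEq f v v') (h' : tpEq f v' v'') :
    tpEq f v v'' :=
  fun S hS => (h S hS).trans (h' S hS)

theorem tpEq.comap {α γ : Type} {v v' : α → N} (h : tpEq f v v') (g : γ → α) :
    tpEq f (fun x => v (g x)) (fun x => v' (g x)) := by
  intro S hS
  exact h _ (hS.comap g)

theorem tpEq.eq_of_point {α : Type} {v : α → N} {u : α → M}
    (h : tpEq f v (fun x => f (u x))) (x : α) : v x = f (u x) := by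
  have hd : Mdef f {v : α → N | v x = f (u x)} := by
    refine ⟨((Term.var (Sum.inl x)).equal (Term.var (Sum.inr (u x)))), fun v => ?_⟩
    simp [Formula.realize_equal]
  exact (h _ hd).2 rfl

end MdefSec

end Helper8Coheir
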