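import Mathlib
import Pool.Agent.Helper8_Coheir.Basic

set_option autoImplicit false

open FirstOrder FirstOrder.Language

namespace Helper8Coheir

universe u v w w'

section TypesSec

variable {L : FirstOrder.Language.{u, v}} {M N : Type w}

/-- A formula uses only finitely many of the parameter variables. -/
theorem exists_finite_support {α : Type} {M : Type w} (ψ : L.Formula (α ⊕ M)) :
    ∃ (p : ℕ) (c : Fin p → M) (ψ' : L.Formula (α ⊕ Fin p)), ∀ (X : Type w') [L.Structure X]
      (v : α → X) (g : M → X),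
      ψ.Realize (Sum.elim v g) ↔ ψ'.Realize (Sum.elim v (fun i => g (c i))) := by
  classical
  have e := ψ.freeVarFinset.toRight.equivFin
  let ψ₁ : L.Formula (α ⊕ ψ.freeVarFinset.toRight) := ψ.restrictFreeVar
    (fun x => Sum.casesOn x.1
        (fun a _ => Sum.inl a) (fun x hx => Sum.inr ⟨x, by simpa using hx⟩) x.2)
  refine ⟨_, fun i => (e.symm i).1, Formula.relabel (Sum.map id e) ψ₁, ?_⟩
  intro X _ v g
  rw [Formula.realize_relabel]
  have h1 : Sum.elim v (fun i => g (e.symm i).1) ∘ Sum.map id e =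
      Sum.elim v (fun p : ψ.freeVarFinset.toRight => g p.1) := by
    funext x
    rcases x with x | x
    · rfl
    · simp
  rw [h1]
  unfold Formula.Realize
  refine (BoundedFormula.realize_restrictFreeVar _ ?_).symm
  rintro ⟨a | a, ha⟩ <;> rfl

/-- Same, for a finite family, with a common tuple of parameters. -/
theorem exists_support_of_family {α ι : Type} [Finite ι] {M : Type w}
    (ψ : ι → L.Formula (α ⊕ M)) :
    ∃ (p : ℕ) (c : Fin p → M) (ψ' : ι → L.Formula (α ⊕ Fin p)),
      ∀ (i : ι) (X : Type w') [L.Structure X]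
      (v : α → X) (g : M → X), (ψ i).Realize (Sum.elim v g) ↔
        (ψ' i).Realize (Sum.elim v (fun j => g (c j))) := by
  classical
  choose p c ψ' h using fun i => exists_finite_support.{u, v, w, w'} (ψ i)
  obtain ⟨q, ⟨e⟩⟩ := Finite.exists_equiv_fin (Σ i, Fin (p i))
  refine ⟨q, fun j => c (e.symm j).1 (e.symm j).2, fun i => (ψ' i).relabel (Sum.map id
    (fun j => e ⟨i, j⟩)), ?_⟩
  intro i X _ v g
  rw [h i X v g, Formula.realize_relabel]
  have : Sum.elim v (fun j => g (c i j)) = (Sum.elim v (fun j : Fin q =>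
      g (c (e.symm j).1 (e.symm j).2))) ∘ (Sum.map id
    (fun j => e ⟨i, j⟩)) := by
    funext x
    rcases x with x | x
    · rfl
    · simp only [Function.comp_apply, Sum.map_inr, Sum.elim_inr]
      rw [e.symm_apply_apply]
  rw [this]

variable [L.Structure M] [L.Structure N]

/-- Compactness: a family of `M`-definable sets with the finite intersection property has a
common point in `N`. -/
def Compactness (f : M ↪ₑ[L] N) : Prop :=
  ∀ (α : Type) [Finite α] (F : Set (Set (α → N))), (∀ S ∈ F, Mdef f S) →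
    (∀ G : Finset F, ∃ v : α → N, ∀ S ∈ G, v ∈ S.1) → ∃ v : α → N, ∀ S ∈ F, v ∈ S

/-- `K` points of `N` are shattered by `S`. -/
def Shatters {A B : Type} (S : Set (A ⊕ B → N)) (K : ℕ) : Prop :=
  ∃ a : Fin K × A → N, ∀ ε : Fin K → Bool, ∃ b : B → N, ∀ i : Fin K,
    (Sum.elim (fun x => a (i, x)) b ∈ S ↔ ε i = true)

omit [L.Structure M] [L.Structure N] in
theorem Shatters.mono {A B : Type} {S : Set (A ⊕ B → N)} {K K' : ℕ} (h : Shatters S K')
    (hK : K ≤ K') : Shatters S K := by
  obtain ⟨a, ha⟩ := h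
  refine ⟨fun q => a (Fin.castLE hK q.1, q.2), fun ε => ?_⟩
  obtain ⟨b, hb⟩ := ha (fun j => if h : j.1 < K then ε ⟨j.1, h⟩ else false)
  refine ⟨b, fun i => ?_⟩
  rw [hb (Fin.castLE hK i)]
  simp

/-- No `M`-definable relation shatters arbitrarily large finite sets of tuples of `N`. -/
def NIPRel (f : M ↪ₑ[L] N) : Prop :=
  ∀ (A B : Type) [Finite A] [Finite B] (S : Set (A ⊕ B → N)), Mdef f S →
    ∃ K : ℕ, ¬ Shatters S K

/-- A common bound for a finite family of `M`-definable sets. -/
theorem NIPRel.common_bound {f : M ↪ₑ[L] N} (h : NIPRel f) {ι A B : Type} [Finite ι]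
    [Finite A] [Finite B]
    {S : ι → Set (A ⊕ B → N)} (hS : ∀ i, Mdef f (S i)) : ∃ K : ℕ, ∀ i, ¬ Shatters (S i) K := by
  choose K hK using fun i => h A B (S i) (hS i)
  obtain ⟨K', hK'⟩ := Finite.exists_le K
  exact ⟨K', fun i hs => hK i (hs.mono (hK' i))⟩

theorem Mdef.slice {f : M ↪ₑ[L] N} {A B K : Type} {S : Set (A ⊕ B → N)} (hS : Mdef f S)
    (i : K) :
    Mdef f {v : (K × A) ⊕ B → N | Sum.elim (fun x => v (Sum.inl (i, x)))
      (fun y => v (Sum.inr y)) ∈ S} := by
  refine (hS.comap (Sum.elim (fun x => Sum.inl (i, x)) (fun y => Sum.inr y))).congr fun v => ?_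
  have : (fun x => v ((Sum.elim (fun x => Sum.inl (i, x)) (fun y => Sum.inr y) :
      A ⊕ B → (K × A) ⊕ B) x)) = Sum.elim (fun x => v (Sum.inl (i, x)))
      (fun y => v (Sum.inr y)) := by
    funext x
    rcases x with x | x <;> rfl
  rw [Set.mem_ofPred_eq, Set.mem_ofPred_eq, this]

end TypesSec

end Helper8Coheir
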