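import Mathlib
import Pool.Agent.Helper8_Coheir.Main

set_option autoImplicit false

open FirstOrder FirstOrder.Language

namespace Helper8Coheir

universe u v w w'

section ConvertSec

variable {L : FirstOrder.Language.{u, v}} {X : Type w} [L.Structure X]

/-- Replace parameter variables by constants. -/
noncomputable def toCon {α : Type} (A : Set X) (ψ : L.Formula (α ⊕ A)) : L[[A]].Formula α :=
  BoundedFormula.constantsVarsEquiv.symm (Formula.relabel Sum.swap ψ)

theorem realize_toCon {α : Type} (A : Set X) (ψ : L.Formula (α ⊕ A)) (v : α → X) :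
    (toCon A ψ).Realize v ↔ ψ.Realize (Sum.elim v (fun a : A => (a : X))) := by
  unfold toCon
  unfold Formula.Realize
  rw [← BoundedFormula.realize_constantsVarsEquiv, Equiv.apply_symm_apply]
  have h := Formula.realize_relabel (φ := ψ) (g := (Sum.swap : α ⊕ A → A ⊕ α))
    (v := Sum.elim (fun a => ((L.con a : L[[A]].Constants) : X)) v)
  unfold Formula.Realize at h
  rw [h]
  have h2 : (Sum.elim (fun a => ((L.con a : L[[A]].Constants) : X)) v) ∘
      (Sum.swap : α ⊕ A → A ⊕ α) = Sum.elim v (fun a : A => (a : X)) := by
    funext x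
    rcases x with x | x <;> rfl
  rw [h2]

/-- Replace constants by parameter variables. -/
noncomputable def toVar {α : Type} (A : Set X) (χ : L[[A]].Formula α) : L.Formula (α ⊕ A) :=
  Formula.relabel Sum.swap (BoundedFormula.constantsVarsEquiv χ : L.Formula (A ⊕ α))

theorem realize_toVar {α : Type} (A : Set X) (χ : L[[A]].Formula α) (v : α → X) :
    (toVar A χ).Realize (Sum.elim v (fun a : A => (a : X))) ↔ χ.Realize v := by
  unfold toVar
  rw [Formula.realize_relabel]
  unfold Formula.Realize
  rw [← BoundedFormula.realize_constantsVarsEquiv]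
  have h2 : (Sum.elim v (fun a : A => (a : X))) ∘ (Sum.swap : A ⊕ α → α ⊕ A) =
      Sum.elim (fun a => ((L.con a : L[[A]].Constants) : X)) v := by
    funext x
    rcases x with x | x <;> rfl
  rw [h2]

end ConvertSec

end Helper8Coheir
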